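import Pool.Agent.MP_251804_lc.Mc.Core
import Pool.Agent.MP_251804_lc.Mc.Gam
import Pool.Agent.MP_251804_lc.Mc.Loc
import Pool.Agent.MP_251804_lc.Mc.Pul

namespace Pool.Agent.Results.MP_251804_lc.BoundedColours
open Pool.Agent.MP_251804_lc

theorem result (ε : ℝ) (hε : 0 < ε) (hε2 : ε < 1 / 2) : ∃ (K₀ : ℕ) (c : ℝ), 0 < c ∧
    ∀ K : Set ℕ, (∀ F : Finset ℕ, (F : Set ℕ) ⊆ K → ∑ a ∈ F, 1 / (a : ℝ) ≤ c) →
      ∀ k l : ℕ → ℕ, (∀ n, 2 ≤ k n) → (∀ n, 2 ≤ l n) →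
        (∀ᶠ n : ℕ in Filter.atTop, (l n : ℝ) ≤ (n : ℝ) ^ ε) → Complete ε k l →
          ∃ᶠ n : ℕ in Filter.atTop,
            (l n = 2 ∧ ∀ n' : ℕ, n ≤ n' → l n' = 2 → k n' < K₀) ∨ (l n = 3 ∧ k n ∉ K) := by
  obtain ⟨K₀, c, hc, H⟩ := Mc.final Mc.gamP Mc.locP Mc.pulP ε hε hε2
  refine ⟨K₀, c, hc, fun K hK k l hk hl hle hC => ?_⟩
  obtain ⟨hA, hB⟩ := H K hK k l hk hl hle hC
  obtain ⟨N, hN⟩ := Filter.eventually_atTop.1 hA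
  refine (hB.and_eventually (Filter.eventually_ge_atTop N)).mono ?_
  rintro n ⟨h | h, hn⟩
  · exact Or.inl ⟨h, fun n' hn' => hN n' (hn.trans hn')⟩
  · exact Or.inr h

end Pool.Agent.Results.MP_251804_lc.BoundedColours
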