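import Pool.Agent.Mg.F251804a.G0d93e0

namespace Pool.Agent.Results.MP_251804_lc.MonotoneNearHalf
open Pool.Agent.MP_251804_lc

theorem result : ∃ ε₀ : ℝ, ε₀ < 1 / 2 ∧ ∀ ε : ℝ, ε₀ < ε → ε < 1 / 2 → ∀ k l : ℕ → ℕ,
    (∀ n, 2 ≤ k n) → (∀ n, 2 ≤ l n) →
      (∃ N, MonotoneOn k (Set.Ici N) ∧ MonotoneOn l (Set.Ici N)) →
        (∀ᶠ n : ℕ in Filter.atTop, (l n : ℝ) ≤ (n : ℝ) ^ ε) → ¬ Complete ε k l :=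
  Ed.finalP Ed.thA_all Ed.iter_all Ed.tripP

end Pool.Agent.Results.MP_251804_lc.MonotoneNearHalf
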