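import Pool.Agent.Mg.F251804.G62119a

namespace Pool.Agent.Results.MP_251804_lc.TriplesSteadyColours
open Pool.Agent.MP_251804_lc

theorem result (ε : ℝ) (hε : 0 < ε) (hε2 : ε < 1 / 2) : ∃ Λ : ℕ, ∀ k l : ℕ → ℕ,
    (∀ n, 2 ≤ k n) →
      (∃ᶠ n : ℕ in Filter.atTop, (3 ≤ k n ∨ 1 / 3 < ε) ∧
        ∀ n' ∈ Set.Icc n (n ^ Λ), k n' = k n ∧ l n' = 3) →
        ¬ Complete ε k l :=
  mainB hε hε2

end Pool.Agent.Results.MP_251804_lc.TriplesSteadyColours
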