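import Pool.Agent.Mg.F251804.Gc100ef

namespace Pool.Agent.Results.MP_251804_lc.TwoColourEdges
open Pool.Agent.MP_251804_lc

theorem result (ε : ℝ) (hε : 9 / 19 < ε) (hε2 : ε < 1 / 2) : ∃ Λ : ℕ, ∀ k l : ℕ → ℕ,
    (∀ n, 2 ≤ k n) →
      (∃ᶠ n : ℕ in Filter.atTop, ∀ n' ∈ Set.Icc n (n ^ Λ), k n' = 2 ∧ l n' = 2) →
        ¬ Complete ε k l :=
  mainA hε hε2

end Pool.Agent.Results.MP_251804_lc.TwoColourEdges
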